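import Pool.Agent.Strip051.Box.C2
import Pool.Agent.Strip051.Box.S30
import Pool.Agent.Strip051.LB.Fc.F2

/-! # LINE tight chart ChB03V1_pm_213 -/

namespace Pool.Agent.Strip051.LB.ChB03V1_pm_213

open Pool.Agent.Strip051.Box Pool.Agent.Strip051.Box2

open Pool.Agent.Strip051.LB.Fc Pool.Agent.Strip051.LB.Fc.F2 Pool.Agent.Strip051.LB.Fn Pool.Agent.Strip051.LB.Fn.F2

/-- coordinates of a point of the box -/
def In (b : Bx) (E : Pt) (x1 x2 : ℝ) : Prop :=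
  (S : ℝ) * x1 = ((b.p1 : ℝ) - b.n1) + b.q1 * E.e1 ∧ (S : ℝ) * x2 = ((b.p2 : ℝ) - b.n2) + b.q2 * E.e2

variable {b : Bx} {E : Pt} {x1 x2 : ℝ}

def t0 (b : Bx) : TM := X1 b
noncomputable def v0 (x1 _x2 : ℝ) : ℝ := x1
theorem h0 (h : In b E x1 x2) : Enc S E (t0 b) (v0 x1 x2) := enc_X1 h.1

def t1 (b : Bx) : TM := X2 b
noncomputable def v1 (_x1 x2 : ℝ) : ℝ := x2
theorem h1 (h : In b E x1 x2) : Enc S E (t1 b) (v1 x1 x2) := enc_X2 h.2

def t2 (_b : Bx) : TM := tconst 1859775393 0 1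
noncomputable def v2 (_x1 _x2 : ℝ) : ℝ := Real.sqrt ((3 : ℕ) : ℝ)
theorem h2 (_h : In b E x1 x2) : Enc S E (t2 b) (v2 x1 x2) := enc_sqrtn E (by decide) (by decide)

def t3 (b : Bx) : TM := tscale 1 2 (t2 b)
noncomputable def v3 (x1 x2 : ℝ) : ℝ := ((1 : ℕ) : ℝ) / ((2 : ℕ) : ℝ) * v2 x1 x2
theorem h3 (h : In b E x1 x2) : Enc S E (t3 b) (v3 x1 x2) := enc_scale 1 (by norm_num) (h2 h)

def t4 (b : Bx) : TM := tsq S (t0 b)
noncomputable def v4 (x1 x2 : ℝ) : ℝ := (v0 x1 x2) ^ 2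
theorem h4 (h : In b E x1 x2) : Enc S E (t4 b) (v4 x1 x2) := enc_sq hS (h0 h)

def t5 (_b : Bx) : TM := tconst (Nat.mul 1 S) 0 0
noncomputable def v5 (_x1 _x2 : ℝ) : ℝ := ((1 : ℕ) : ℝ)
theorem h5 (_h : In b E x1 x2) : Enc S E (t5 b) (v5 x1 x2) := enc_nc E 1

def t6 (b : Bx) : TM := tsub (t5 b) (t4 b)
noncomputable def v6 (x1 x2 : ℝ) : ℝ := v5 x1 x2 - v4 x1 x2
theorem h6 (h : In b E x1 x2) : Enc S E (t6 b) (v6 x1 x2) := enc_sub (h5 h) (h4 h)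

def t7 (b : Bx) : TM := tsqrt S (t6 b)
noncomputable def v7 (x1 x2 : ℝ) : ℝ := Real.sqrt (v6 x1 x2)
theorem h7 (h : In b E x1 x2) : Enc S E (t7 b) (v7 x1 x2) := enc_sqrt hS (h6 h)

def t9 (_b : Bx) : TM := tconst (Nat.div (Nat.mul 1 S) 2) 0 1
noncomputable def v9 (_x1 _x2 : ℝ) : ℝ := ((1 : ℕ) : ℝ) / ((2 : ℕ) : ℝ)
theorem h9 (_h : In b E x1 x2) : Enc S E (t9 b) (v9 x1 x2) := enc_rat E 1 (by norm_num)

def t10 (b : Bx) : TM := tscale 1 2 (t0 b)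
noncomputable def v10 (x1 x2 : ℝ) : ℝ := ((1 : ℕ) : ℝ) / ((2 : ℕ) : ℝ) * v0 x1 x2
theorem h10 (h : In b E x1 x2) : Enc S E (t10 b) (v10 x1 x2) := enc_scale 1 (by norm_num) (h0 h)

def t11 (b : Bx) : TM := tmul S (t7 b) (t3 b)
noncomputable def v11 (x1 x2 : ℝ) : ℝ := v7 x1 x2 * v3 x1 x2
theorem h11 (h : In b E x1 x2) : Enc S E (t11 b) (v11 x1 x2) := enc_mul hS (h7 h) (h3 h)

def t13 (b : Bx) : TM := tscale 1 2 (t7 b)
noncomputable def v13 (x1 x2 : ℝ) : ℝ := ((1 : ℕ) : ℝ) / ((2 : ℕ) : ℝ) * v7 x1 x2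
theorem h13 (h : In b E x1 x2) : Enc S E (t13 b) (v13 x1 x2) := enc_scale 1 (by norm_num) (h7 h)

def t14 (b : Bx) : TM := tmul S (t0 b) (t3 b)
noncomputable def v14 (x1 x2 : ℝ) : ℝ := v0 x1 x2 * v3 x1 x2
theorem h14 (h : In b E x1 x2) : Enc S E (t14 b) (v14 x1 x2) := enc_mul hS (h0 h) (h3 h)

def t16 (b : Bx) : TM := tsub (t14 b) (t13 b)
noncomputable def v16 (x1 x2 : ℝ) : ℝ := v14 x1 x2 - v13 x1 x2
theorem h16 (h : In b E x1 x2) : Enc S E (t16 b) (v16 x1 x2) := enc_sub (h14 h) (h13 h)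

def t17 (b : Bx) : TM := tadd (t11 b) (t10 b)
noncomputable def v17 (x1 x2 : ℝ) : ℝ := v11 x1 x2 + v10 x1 x2
theorem h17 (h : In b E x1 x2) : Enc S E (t17 b) (v17 x1 x2) := enc_add (h11 h) (h10 h)

def t18 (b : Bx) : TM := tmul S (t16 b) (t2 b)
noncomputable def v18 (x1 x2 : ℝ) : ℝ := v16 x1 x2 * v2 x1 x2
theorem h18 (h : In b E x1 x2) : Enc S E (t18 b) (v18 x1 x2) := enc_mul hS (h16 h) (h2 h)

def t19 (b : Bx) : TM := tmul S (t17 b) (t2 b)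
noncomputable def v19 (x1 x2 : ℝ) : ℝ := v17 x1 x2 * v2 x1 x2
theorem h19 (h : In b E x1 x2) : Enc S E (t19 b) (v19 x1 x2) := enc_mul hS (h17 h) (h2 h)

def t20 (b : Bx) : TM := tsub (t1 b) (t18 b)
noncomputable def v20 (x1 x2 : ℝ) : ℝ := v1 x1 x2 - v18 x1 x2
theorem h20 (h : In b E x1 x2) : Enc S E (t20 b) (v20 x1 x2) := enc_sub (h1 h) (h18 h)

def t21 (b : Bx) : TM := tsq S (t1 b)
noncomputable def v21 (x1 x2 : ℝ) : ℝ := (v1 x1 x2) ^ 2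
theorem h21 (h : In b E x1 x2) : Enc S E (t21 b) (v21 x1 x2) := enc_sq hS (h1 h)

def t22 (_b : Bx) : TM := tconst (Nat.mul 3 S) 0 0
noncomputable def v22 (_x1 _x2 : ℝ) : ℝ := ((3 : ℕ) : ℝ)
theorem h22 (_h : In b E x1 x2) : Enc S E (t22 b) (v22 x1 x2) := enc_nc E 3

def t23 (b : Bx) : TM := tsub (t22 b) (t21 b)
noncomputable def v23 (x1 x2 : ℝ) : ℝ := v22 x1 x2 - v21 x1 x2
theorem h23 (h : In b E x1 x2) : Enc S E (t23 b) (v23 x1 x2) := enc_sub (h22 h) (h21 h)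

def t24 (b : Bx) : TM := tsqrt S (t23 b)
noncomputable def v24 (x1 x2 : ℝ) : ℝ := Real.sqrt (v23 x1 x2)
theorem h24 (h : In b E x1 x2) : Enc S E (t24 b) (v24 x1 x2) := enc_sqrt hS (h23 h)

def t25 (b : Bx) : TM := tsub (t1 b) (t0 b)
noncomputable def v25 (x1 x2 : ℝ) : ℝ := v1 x1 x2 - v0 x1 x2
theorem h25 (h : In b E x1 x2) : Enc S E (t25 b) (v25 x1 x2) := enc_sub (h1 h) (h0 h)

def t26 (b : Bx) : TM := tsub (t24 b) (t7 b)
noncomputable def v26 (x1 x2 : ℝ) : ℝ := v24 x1 x2 - v7 x1 x2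
theorem h26 (h : In b E x1 x2) : Enc S E (t26 b) (v26 x1 x2) := enc_sub (h24 h) (h7 h)

def t27 (b : Bx) : TM := tsub (t18 b) (t1 b)
noncomputable def v27 (x1 x2 : ℝ) : ℝ := v18 x1 x2 - v1 x1 x2
theorem h27 (h : In b E x1 x2) : Enc S E (t27 b) (v27 x1 x2) := enc_sub (h18 h) (h1 h)

def t32 (b : Bx) : TM := tsub (t22 b) (t1 b)
noncomputable def v32 (x1 x2 : ℝ) : ℝ := v22 x1 x2 - v1 x1 x2
theorem h32 (h : In b E x1 x2) : Enc S E (t32 b) (v32 x1 x2) := enc_sub (h22 h) (h1 h)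

def t33 (b : Bx) : TM := tmul S (t2 b) (t24 b)
noncomputable def v33 (x1 x2 : ℝ) : ℝ := v2 x1 x2 * v24 x1 x2
theorem h33 (h : In b E x1 x2) : Enc S E (t33 b) (v33 x1 x2) := enc_mul hS (h2 h) (h24 h)

def t34 (b : Bx) : TM := tsub (t32 b) (t33 b)
noncomputable def v34 (x1 x2 : ℝ) : ℝ := v32 x1 x2 - v33 x1 x2
theorem h34 (h : In b E x1 x2) : Enc S E (t34 b) (v34 x1 x2) := enc_sub (h32 h) (h33 h)

def t36 (b : Bx) : TM := tsub (t24 b) (t3 b)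
noncomputable def v36 (x1 x2 : ℝ) : ℝ := v24 x1 x2 - v3 x1 x2
theorem h36 (h : In b E x1 x2) : Enc S E (t36 b) (v36 x1 x2) := enc_sub (h24 h) (h3 h)

def t37 (b : Bx) : TM := tnat 4 (t36 b)
noncomputable def v37 (x1 x2 : ℝ) : ℝ := ((4 : ℕ) : ℝ) * v36 x1 x2
theorem h37 (h : In b E x1 x2) : Enc S E (t37 b) (v37 x1 x2) := enc_nat 4 (h36 h)

def t38 (b : Bx) : TM := tinv S (t37 b)
noncomputable def v38 (x1 x2 : ℝ) : ℝ := (v37 x1 x2)⁻¹
theorem h38 (h : In b E x1 x2) : Enc S E (t38 b) (v38 x1 x2) := enc_inv hS (h37 h)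

def t41 (b : Bx) : TM := tsq S (t25 b)
noncomputable def v41 (x1 x2 : ℝ) : ℝ := (v25 x1 x2) ^ 2
theorem h41 (h : In b E x1 x2) : Enc S E (t41 b) (v41 x1 x2) := enc_sq hS (h25 h)

def t42 (b : Bx) : TM := tsq S (t26 b)
noncomputable def v42 (x1 x2 : ℝ) : ℝ := (v26 x1 x2) ^ 2
theorem h42 (h : In b E x1 x2) : Enc S E (t42 b) (v42 x1 x2) := enc_sq hS (h26 h)

def t43 (b : Bx) : TM := tadd (t41 b) (t42 b)
noncomputable def v43 (x1 x2 : ℝ) : ℝ := v41 x1 x2 + v42 x1 x2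
theorem h43 (h : In b E x1 x2) : Enc S E (t43 b) (v43 x1 x2) := enc_add (h41 h) (h42 h)

def t47 (b : Bx) : TM := tsub (t18 b) (t0 b)
noncomputable def v47 (x1 x2 : ℝ) : ℝ := v18 x1 x2 - v0 x1 x2
theorem h47 (h : In b E x1 x2) : Enc S E (t47 b) (v47 x1 x2) := enc_sub (h18 h) (h0 h)

def t49 (b : Bx) : TM := tadd (t25 b) (t47 b)
noncomputable def v49 (x1 x2 : ℝ) : ℝ := v25 x1 x2 + v47 x1 x2
theorem h49 (h : In b E x1 x2) : Enc S E (t49 b) (v49 x1 x2) := enc_add (h25 h) (h47 h)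

def t52 (b : Bx) : TM := tadd (t1 b) (t18 b)
noncomputable def v52 (x1 x2 : ℝ) : ℝ := v1 x1 x2 + v18 x1 x2
theorem h52 (h : In b E x1 x2) : Enc S E (t52 b) (v52 x1 x2) := enc_add (h1 h) (h18 h)

def t55 (b : Bx) : TM := tadd (t24 b) (t19 b)
noncomputable def v55 (x1 x2 : ℝ) : ℝ := v24 x1 x2 + v19 x1 x2
theorem h55 (h : In b E x1 x2) : Enc S E (t55 b) (v55 x1 x2) := enc_add (h24 h) (h19 h)

def t56 (b : Bx) : TM := tinv S (t55 b)
noncomputable def v56 (x1 x2 : ℝ) : ℝ := (v55 x1 x2)⁻¹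
theorem h56 (h : In b E x1 x2) : Enc S E (t56 b) (v56 x1 x2) := enc_inv hS (h55 h)

def t57 (b : Bx) : TM := tmul S (t52 b) (t56 b)
noncomputable def v57 (x1 x2 : ℝ) : ℝ := v52 x1 x2 * v56 x1 x2
theorem h57 (h : In b E x1 x2) : Enc S E (t57 b) (v57 x1 x2) := enc_mul hS (h52 h) (h56 h)

def t58 (b : Bx) : TM := tsub (t19 b) (t7 b)
noncomputable def v58 (x1 x2 : ℝ) : ℝ := v19 x1 x2 - v7 x1 x2
theorem h58 (h : In b E x1 x2) : Enc S E (t58 b) (v58 x1 x2) := enc_sub (h19 h) (h7 h)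

def t60 (b : Bx) : TM := tadd (t26 b) (t58 b)
noncomputable def v60 (x1 x2 : ℝ) : ℝ := v26 x1 x2 + v58 x1 x2
theorem h60 (h : In b E x1 x2) : Enc S E (t60 b) (v60 x1 x2) := enc_add (h26 h) (h58 h)

def t61 (b : Bx) : TM := tmul S (t57 b) (t60 b)
noncomputable def v61 (x1 x2 : ℝ) : ℝ := v57 x1 x2 * v60 x1 x2
theorem h61 (h : In b E x1 x2) : Enc S E (t61 b) (v61 x1 x2) := enc_mul hS (h57 h) (h60 h)

def t63 (b : Bx) : TM := tsub (t61 b) (t49 b)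
noncomputable def v63 (x1 x2 : ℝ) : ℝ := v61 x1 x2 - v49 x1 x2
theorem h63 (h : In b E x1 x2) : Enc S E (t63 b) (v63 x1 x2) := enc_sub (h61 h) (h49 h)

def t65 (b : Bx) : TM := tsub (t0 b) (t1 b)
noncomputable def v65 (x1 x2 : ℝ) : ℝ := v0 x1 x2 - v1 x1 x2
theorem h65 (h : In b E x1 x2) : Enc S E (t65 b) (v65 x1 x2) := enc_sub (h0 h) (h1 h)

def t66 (b : Bx) : TM := tsub (t5 b) (t42 b)
noncomputable def v66 (x1 x2 : ℝ) : ℝ := v5 x1 x2 - v42 x1 x2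
theorem h66 (h : In b E x1 x2) : Enc S E (t66 b) (v66 x1 x2) := enc_sub (h5 h) (h42 h)

def t67 (b : Bx) : TM := tsqrt S (t66 b)
noncomputable def v67 (x1 x2 : ℝ) : ℝ := Real.sqrt (v66 x1 x2)
theorem h67 (h : In b E x1 x2) : Enc S E (t67 b) (v67 x1 x2) := enc_sqrt hS (h66 h)

def t68 (b : Bx) : TM := tsub (t11 b) (t10 b)
noncomputable def v68 (x1 x2 : ℝ) : ℝ := v11 x1 x2 - v10 x1 x2
theorem h68 (h : In b E x1 x2) : Enc S E (t68 b) (v68 x1 x2) := enc_sub (h11 h) (h10 h)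

def t71 (b : Bx) : TM := tmul S (t2 b) (t26 b)
noncomputable def v71 (x1 x2 : ℝ) : ℝ := v2 x1 x2 * v26 x1 x2
theorem h71 (h : In b E x1 x2) : Enc S E (t71 b) (v71 x1 x2) := enc_mul hS (h2 h) (h26 h)

def t72 (b : Bx) : TM := tsub (t71 b) (t67 b)
noncomputable def v72 (x1 x2 : ℝ) : ℝ := v71 x1 x2 - v67 x1 x2
theorem h72 (h : In b E x1 x2) : Enc S E (t72 b) (v72 x1 x2) := enc_sub (h71 h) (h67 h)

def t74 (b : Bx) : TM := tadd (t5 b) (t71 b)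
noncomputable def v74 (x1 x2 : ℝ) : ℝ := v5 x1 x2 + v71 x1 x2
theorem h74 (h : In b E x1 x2) : Enc S E (t74 b) (v74 x1 x2) := enc_add (h5 h) (h71 h)

def t75 (b : Bx) : TM := tsub (t74 b) (t67 b)
noncomputable def v75 (x1 x2 : ℝ) : ℝ := v74 x1 x2 - v67 x1 x2
theorem h75 (h : In b E x1 x2) : Enc S E (t75 b) (v75 x1 x2) := enc_sub (h74 h) (h67 h)

def t76 (b : Bx) : TM := tnat 2 (t75 b)
noncomputable def v76 (x1 x2 : ℝ) : ℝ := ((2 : ℕ) : ℝ) * v75 x1 x2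
theorem h76 (h : In b E x1 x2) : Enc S E (t76 b) (v76 x1 x2) := enc_nat 2 (h75 h)

def t77 (b : Bx) : TM := tinv S (t76 b)
noncomputable def v77 (x1 x2 : ℝ) : ℝ := (v76 x1 x2)⁻¹
theorem h77 (h : In b E x1 x2) : Enc S E (t77 b) (v77 x1 x2) := enc_inv hS (h76 h)

def t81 (b : Bx) : TM := tadd (t67 b) (t68 b)
noncomputable def v81 (x1 x2 : ℝ) : ℝ := v67 x1 x2 + v68 x1 x2
theorem h81 (h : In b E x1 x2) : Enc S E (t81 b) (v81 x1 x2) := enc_add (h67 h) (h68 h)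

def t82 (b : Bx) : TM := tinv S (t81 b)
noncomputable def v82 (x1 x2 : ℝ) : ℝ := (v81 x1 x2)⁻¹
theorem h82 (h : In b E x1 x2) : Enc S E (t82 b) (v82 x1 x2) := enc_inv hS (h81 h)

def t83 (b : Bx) : TM := tmul S (t61 b) (t82 b)
noncomputable def v83 (x1 x2 : ℝ) : ℝ := v61 x1 x2 * v82 x1 x2
theorem h83 (h : In b E x1 x2) : Enc S E (t83 b) (v83 x1 x2) := enc_mul hS (h61 h) (h82 h)

def t85 (b : Bx) : TM := tnat 2 (t68 b)
noncomputable def v85 (x1 x2 : ℝ) : ℝ := ((2 : ℕ) : ℝ) * v68 x1 x2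
theorem h85 (h : In b E x1 x2) : Enc S E (t85 b) (v85 x1 x2) := enc_nat 2 (h68 h)

def t86 (b : Bx) : TM := tnat 2 (t83 b)
noncomputable def v86 (x1 x2 : ℝ) : ℝ := ((2 : ℕ) : ℝ) * v83 x1 x2
theorem h86 (h : In b E x1 x2) : Enc S E (t86 b) (v86 x1 x2) := enc_nat 2 (h83 h)

def t88 (b : Bx) : TM := tadd (t5 b) (t85 b)
noncomputable def v88 (x1 x2 : ℝ) : ℝ := v5 x1 x2 + v85 x1 x2
theorem h88 (h : In b E x1 x2) : Enc S E (t88 b) (v88 x1 x2) := enc_add (h5 h) (h85 h)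

def t89 (b : Bx) : TM := tmul S (t2 b) (t58 b)
noncomputable def v89 (x1 x2 : ℝ) : ℝ := v2 x1 x2 * v58 x1 x2
theorem h89 (h : In b E x1 x2) : Enc S E (t89 b) (v89 x1 x2) := enc_mul hS (h2 h) (h58 h)

def t90 (b : Bx) : TM := tmul S (t2 b) (t57 b)
noncomputable def v90 (x1 x2 : ℝ) : ℝ := v2 x1 x2 * v57 x1 x2
theorem h90 (h : In b E x1 x2) : Enc S E (t90 b) (v90 x1 x2) := enc_mul hS (h2 h) (h57 h)

def t91 (b : Bx) : TM := tsub (t89 b) (t68 b)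
noncomputable def v91 (x1 x2 : ℝ) : ℝ := v89 x1 x2 - v68 x1 x2
theorem h91 (h : In b E x1 x2) : Enc S E (t91 b) (v91 x1 x2) := enc_sub (h89 h) (h68 h)

def t92 (b : Bx) : TM := tadd (t90 b) (t83 b)
noncomputable def v92 (x1 x2 : ℝ) : ℝ := v90 x1 x2 + v83 x1 x2
theorem h92 (h : In b E x1 x2) : Enc S E (t92 b) (v92 x1 x2) := enc_add (h90 h) (h83 h)

def t93 (b : Bx) : TM := tmul S (t88 b) (t91 b)
noncomputable def v93 (x1 x2 : ℝ) : ℝ := v88 x1 x2 * v91 x1 x2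
theorem h93 (h : In b E x1 x2) : Enc S E (t93 b) (v93 x1 x2) := enc_mul hS (h88 h) (h91 h)

def t94 (b : Bx) : TM := tmul S (t86 b) (t72 b)
noncomputable def v94 (x1 x2 : ℝ) : ℝ := v86 x1 x2 * v72 x1 x2
theorem h94 (h : In b E x1 x2) : Enc S E (t94 b) (v94 x1 x2) := enc_mul hS (h86 h) (h72 h)

def t96 (b : Bx) : TM := tmul S (t88 b) (t92 b)
noncomputable def v96 (x1 x2 : ℝ) : ℝ := v88 x1 x2 * v92 x1 x2
theorem h96 (h : In b E x1 x2) : Enc S E (t96 b) (v96 x1 x2) := enc_mul hS (h88 h) (h92 h)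

def t97 (b : Bx) : TM := tsub (t96 b) (t94 b)
noncomputable def v97 (x1 x2 : ℝ) : ℝ := v96 x1 x2 - v94 x1 x2
theorem h97 (h : In b E x1 x2) : Enc S E (t97 b) (v97 x1 x2) := enc_sub (h96 h) (h94 h)

def t98 (b : Bx) : TM := tadd (t5 b) (t89 b)
noncomputable def v98 (x1 x2 : ℝ) : ℝ := v5 x1 x2 + v89 x1 x2
theorem h98 (h : In b E x1 x2) : Enc S E (t98 b) (v98 x1 x2) := enc_add (h5 h) (h89 h)

def t99 (b : Bx) : TM := tsub (t98 b) (t68 b)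
noncomputable def v99 (x1 x2 : ℝ) : ℝ := v98 x1 x2 - v68 x1 x2
theorem h99 (h : In b E x1 x2) : Enc S E (t99 b) (v99 x1 x2) := enc_sub (h98 h) (h68 h)

def t100 (b : Bx) : TM := tnat 2 (t99 b)
noncomputable def v100 (x1 x2 : ℝ) : ℝ := ((2 : ℕ) : ℝ) * v99 x1 x2
theorem h100 (h : In b E x1 x2) : Enc S E (t100 b) (v100 x1 x2) := enc_nat 2 (h99 h)

def t101 (b : Bx) : TM := tnat 2 (t92 b)
noncomputable def v101 (x1 x2 : ℝ) : ℝ := ((2 : ℕ) : ℝ) * v92 x1 x2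
theorem h101 (h : In b E x1 x2) : Enc S E (t101 b) (v101 x1 x2) := enc_nat 2 (h92 h)

def t102 (b : Bx) : TM := tinv S (t100 b)
noncomputable def v102 (x1 x2 : ℝ) : ℝ := (v100 x1 x2)⁻¹
theorem h102 (h : In b E x1 x2) : Enc S E (t102 b) (v102 x1 x2) := enc_inv hS (h100 h)

def t103 (b : Bx) : TM := tmul S (t77 b) (t102 b)
noncomputable def v103 (x1 x2 : ℝ) : ℝ := v77 x1 x2 * v102 x1 x2
theorem h103 (h : In b E x1 x2) : Enc S E (t103 b) (v103 x1 x2) := enc_mul hS (h77 h) (h102 h)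

def t104 (b : Bx) : TM := tmul S (t101 b) (t103 b)
noncomputable def v104 (x1 x2 : ℝ) : ℝ := v101 x1 x2 * v103 x1 x2
theorem h104 (h : In b E x1 x2) : Enc S E (t104 b) (v104 x1 x2) := enc_mul hS (h101 h) (h103 h)

def t107 (b : Bx) : TM := tmul S (t97 b) (t77 b)
noncomputable def v107 (x1 x2 : ℝ) : ℝ := v97 x1 x2 * v77 x1 x2
theorem h107 (h : In b E x1 x2) : Enc S E (t107 b) (v107 x1 x2) := enc_mul hS (h97 h) (h77 h)

def t108 (b : Bx) : TM := tmul S (t93 b) (t104 b)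
noncomputable def v108 (x1 x2 : ℝ) : ℝ := v93 x1 x2 * v104 x1 x2
theorem h108 (h : In b E x1 x2) : Enc S E (t108 b) (v108 x1 x2) := enc_mul hS (h93 h) (h104 h)

def t110 (b : Bx) : TM := tsub (t107 b) (t108 b)
noncomputable def v110 (x1 x2 : ℝ) : ℝ := v107 x1 x2 - v108 x1 x2
theorem h110 (h : In b E x1 x2) : Enc S E (t110 b) (v110 x1 x2) := enc_sub (h107 h) (h108 h)

def t111 (b : Bx) : TM := kxq1_t (t65 b) (t26 b)
noncomputable def v111 (x1 x2 : ℝ) : ℝ := kxq1_v (v65 x1 x2) (v26 x1 x2)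
theorem h111 (h : In b E x1 x2) : Enc S E (t111 b) (v111 x1 x2) := kxq1_enc (h65 h) (h26 h)

def t112 (b : Bx) : TM := tadd (t65 b) (t67 b)
noncomputable def v112 (x1 x2 : ℝ) : ℝ := v65 x1 x2 + v67 x1 x2
theorem h112 (h : In b E x1 x2) : Enc S E (t112 b) (v112 x1 x2) := enc_add (h65 h) (h67 h)

def t113 (b : Bx) : TM := f2m_t (t26 b)
noncomputable def v113 (x1 x2 : ℝ) : ℝ := f2m_v (v26 x1 x2)
theorem h113 (h : In b E x1 x2) : Enc S E (t113 b) (v113 x1 x2) := f2m_enc (h26 h)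

def t114 (b : Bx) : TM := tsub (t113 b) (t65 b)
noncomputable def v114 (x1 x2 : ℝ) : ℝ := v113 x1 x2 - v65 x1 x2
theorem h114 (h : In b E x1 x2) : Enc S E (t114 b) (v114 x1 x2) := enc_sub (h113 h) (h65 h)

def t120 (b : Bx) : TM := tmul S (t63 b) (t111 b)
noncomputable def v120 (x1 x2 : ℝ) : ℝ := v63 x1 x2 * v111 x1 x2
theorem h120 (h : In b E x1 x2) : Enc S E (t120 b) (v120 x1 x2) := enc_mul hS (h63 h) (h111 h)

def t121 (b : Bx) : TM := tinv S (t112 b)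
noncomputable def v121 (x1 x2 : ℝ) : ℝ := (v112 x1 x2)⁻¹
theorem h121 (h : In b E x1 x2) : Enc S E (t121 b) (v121 x1 x2) := enc_inv hS (h112 h)

def t122 (b : Bx) : TM := tmul S (t120 b) (t121 b)
noncomputable def v122 (x1 x2 : ℝ) : ℝ := v120 x1 x2 * v121 x1 x2
theorem h122 (h : In b E x1 x2) : Enc S E (t122 b) (v122 x1 x2) := enc_mul hS (h120 h) (h121 h)

def t123 (b : Bx) : TM := tadd (t110 b) (t122 b)
noncomputable def v123 (x1 x2 : ℝ) : ℝ := v110 x1 x2 + v122 x1 x2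
theorem h123 (h : In b E x1 x2) : Enc S E (t123 b) (v123 x1 x2) := enc_add (h110 h) (h122 h)

def t125 (b : Bx) : TM := tmul S (t0 b) (t24 b)
noncomputable def v125 (x1 x2 : ℝ) : ℝ := v0 x1 x2 * v24 x1 x2
theorem h125 (h : In b E x1 x2) : Enc S E (t125 b) (v125 x1 x2) := enc_mul hS (h0 h) (h24 h)

def t126 (b : Bx) : TM := tmul S (t1 b) (t7 b)
noncomputable def v126 (x1 x2 : ℝ) : ℝ := v1 x1 x2 * v7 x1 x2
theorem h126 (h : In b E x1 x2) : Enc S E (t126 b) (v126 x1 x2) := enc_mul hS (h1 h) (h7 h)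

def t127 (b : Bx) : TM := tsub (t125 b) (t126 b)
noncomputable def v127 (x1 x2 : ℝ) : ℝ := v125 x1 x2 - v126 x1 x2
theorem h127 (h : In b E x1 x2) : Enc S E (t127 b) (v127 x1 x2) := enc_sub (h125 h) (h126 h)

def t128 (b : Bx) : TM := tinv S (t2 b)
noncomputable def v128 (x1 x2 : ℝ) : ℝ := (v2 x1 x2)⁻¹
theorem h128 (h : In b E x1 x2) : Enc S E (t128 b) (v128 x1 x2) := enc_inv hS (h2 h)

def t129 (b : Bx) : TM := tmul S (t127 b) (t128 b)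
noncomputable def v129 (x1 x2 : ℝ) : ℝ := v127 x1 x2 * v128 x1 x2
theorem h129 (h : In b E x1 x2) : Enc S E (t129 b) (v129 x1 x2) := enc_mul hS (h127 h) (h128 h)

def t130 (b : Bx) : TM := tsub (t129 b) (t9 b)
noncomputable def v130 (x1 x2 : ℝ) : ℝ := v129 x1 x2 - v9 x1 x2
theorem h130 (h : In b E x1 x2) : Enc S E (t130 b) (v130 x1 x2) := enc_sub (h129 h) (h9 h)

def t132 (b : Bx) : TM := tmul S (t0 b) (t57 b)
noncomputable def v132 (x1 x2 : ℝ) : ℝ := v0 x1 x2 * v57 x1 x2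
theorem h132 (h : In b E x1 x2) : Enc S E (t132 b) (v132 x1 x2) := enc_mul hS (h0 h) (h57 h)

def t136 (b : Bx) : TM := tadd (t132 b) (t7 b)
noncomputable def v136 (x1 x2 : ℝ) : ℝ := v132 x1 x2 + v7 x1 x2
theorem h136 (h : In b E x1 x2) : Enc S E (t136 b) (v136 x1 x2) := enc_add (h132 h) (h7 h)

def t138 (b : Bx) : TM := tmul S (t136 b) (t128 b)
noncomputable def v138 (x1 x2 : ℝ) : ℝ := v136 x1 x2 * v128 x1 x2
theorem h138 (h : In b E x1 x2) : Enc S E (t138 b) (v138 x1 x2) := enc_mul hS (h136 h) (h128 h)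

def t140 (b : Bx) : TM := tsub (t7 b) (t3 b)
noncomputable def v140 (x1 x2 : ℝ) : ℝ := v7 x1 x2 - v3 x1 x2
theorem h140 (h : In b E x1 x2) : Enc S E (t140 b) (v140 x1 x2) := enc_sub (h7 h) (h3 h)

def t141 (b : Bx) : TM := tsub (t26 b) (t3 b)
noncomputable def v141 (x1 x2 : ℝ) : ℝ := v26 x1 x2 - v3 x1 x2
theorem h141 (h : In b E x1 x2) : Enc S E (t141 b) (v141 x1 x2) := enc_sub (h26 h) (h3 h)

def t143 (b : Bx) : TM := tmul S (t2 b) (t18 b)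
noncomputable def v143 (x1 x2 : ℝ) : ℝ := v2 x1 x2 * v18 x1 x2
theorem h143 (h : In b E x1 x2) : Enc S E (t143 b) (v143 x1 x2) := enc_mul hS (h2 h) (h18 h)

def t145 (b : Bx) : TM := tneg (t143 b)
noncomputable def v145 (x1 x2 : ℝ) : ℝ := -(v143 x1 x2)
theorem h145 (h : In b E x1 x2) : Enc S E (t145 b) (v145 x1 x2) := enc_neg (h143 h)

def t146 (b : Bx) : TM := tsub (t145 b) (t19 b)
noncomputable def v146 (x1 x2 : ℝ) : ℝ := v145 x1 x2 - v19 x1 x2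
theorem h146 (h : In b E x1 x2) : Enc S E (t146 b) (v146 x1 x2) := enc_sub (h145 h) (h19 h)

def t147 (b : Bx) : TM := tsub (t2 b) (t57 b)
noncomputable def v147 (x1 x2 : ℝ) : ℝ := v2 x1 x2 - v57 x1 x2
theorem h147 (h : In b E x1 x2) : Enc S E (t147 b) (v147 x1 x2) := enc_sub (h2 h) (h57 h)

def t148 (b : Bx) : TM := tsub (t22 b) (t18 b)
noncomputable def v148 (x1 x2 : ℝ) : ℝ := v22 x1 x2 - v18 x1 x2
theorem h148 (h : In b E x1 x2) : Enc S E (t148 b) (v148 x1 x2) := enc_sub (h22 h) (h18 h)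

def t149 (b : Bx) : TM := tmul S (t2 b) (t19 b)
noncomputable def v149 (x1 x2 : ℝ) : ℝ := v2 x1 x2 * v19 x1 x2
theorem h149 (h : In b E x1 x2) : Enc S E (t149 b) (v149 x1 x2) := enc_mul hS (h2 h) (h19 h)

def t150 (b : Bx) : TM := tsub (t148 b) (t149 b)
noncomputable def v150 (x1 x2 : ℝ) : ℝ := v148 x1 x2 - v149 x1 x2
theorem h150 (h : In b E x1 x2) : Enc S E (t150 b) (v150 x1 x2) := enc_sub (h148 h) (h149 h)

def t151 (b : Bx) : TM := tsub (t5 b) (t90 b)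
noncomputable def v151 (x1 x2 : ℝ) : ℝ := v5 x1 x2 - v90 x1 x2
theorem h151 (h : In b E x1 x2) : Enc S E (t151 b) (v151 x1 x2) := enc_sub (h5 h) (h90 h)

def t152 (b : Bx) : TM := tmul S (t146 b) (t150 b)
noncomputable def v152 (x1 x2 : ℝ) : ℝ := v146 x1 x2 * v150 x1 x2
theorem h152 (h : In b E x1 x2) : Enc S E (t152 b) (v152 x1 x2) := enc_mul hS (h146 h) (h150 h)

def t153 (b : Bx) : TM := tmul S (t147 b) (t34 b)
noncomputable def v153 (x1 x2 : ℝ) : ℝ := v147 x1 x2 * v34 x1 x2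
theorem h153 (h : In b E x1 x2) : Enc S E (t153 b) (v153 x1 x2) := enc_mul hS (h147 h) (h34 h)

def t154 (b : Bx) : TM := tmul S (t146 b) (t151 b)
noncomputable def v154 (x1 x2 : ℝ) : ℝ := v146 x1 x2 * v151 x1 x2
theorem h154 (h : In b E x1 x2) : Enc S E (t154 b) (v154 x1 x2) := enc_mul hS (h146 h) (h151 h)

def t155 (b : Bx) : TM := tadd (t153 b) (t154 b)
noncomputable def v155 (x1 x2 : ℝ) : ℝ := v153 x1 x2 + v154 x1 x2
theorem h155 (h : In b E x1 x2) : Enc S E (t155 b) (v155 x1 x2) := enc_add (h153 h) (h154 h)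

def t156 (b : Bx) : TM := tsub (t19 b) (t3 b)
noncomputable def v156 (x1 x2 : ℝ) : ℝ := v19 x1 x2 - v3 x1 x2
theorem h156 (h : In b E x1 x2) : Enc S E (t156 b) (v156 x1 x2) := enc_sub (h19 h) (h3 h)

def t157 (b : Bx) : TM := tnat 4 (t156 b)
noncomputable def v157 (x1 x2 : ℝ) : ℝ := ((4 : ℕ) : ℝ) * v156 x1 x2
theorem h157 (h : In b E x1 x2) : Enc S E (t157 b) (v157 x1 x2) := enc_nat 4 (h156 h)

def t158 (b : Bx) : TM := tnat 4 (t57 b)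
noncomputable def v158 (x1 x2 : ℝ) : ℝ := ((4 : ℕ) : ℝ) * v57 x1 x2
theorem h158 (h : In b E x1 x2) : Enc S E (t158 b) (v158 x1 x2) := enc_nat 4 (h57 h)

def t159 (b : Bx) : TM := tinv S (t157 b)
noncomputable def v159 (x1 x2 : ℝ) : ℝ := (v157 x1 x2)⁻¹
theorem h159 (h : In b E x1 x2) : Enc S E (t159 b) (v159 x1 x2) := enc_inv hS (h157 h)

def t160 (b : Bx) : TM := tmul S (t38 b) (t159 b)
noncomputable def v160 (x1 x2 : ℝ) : ℝ := v38 x1 x2 * v159 x1 x2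
theorem h160 (h : In b E x1 x2) : Enc S E (t160 b) (v160 x1 x2) := enc_mul hS (h38 h) (h159 h)

def t161 (b : Bx) : TM := tmul S (t158 b) (t160 b)
noncomputable def v161 (x1 x2 : ℝ) : ℝ := v158 x1 x2 * v160 x1 x2
theorem h161 (h : In b E x1 x2) : Enc S E (t161 b) (v161 x1 x2) := enc_mul hS (h158 h) (h160 h)

def t164 (b : Bx) : TM := tmul S (t155 b) (t38 b)
noncomputable def v164 (x1 x2 : ℝ) : ℝ := v155 x1 x2 * v38 x1 x2
theorem h164 (h : In b E x1 x2) : Enc S E (t164 b) (v164 x1 x2) := enc_mul hS (h155 h) (h38 h)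

def t165 (b : Bx) : TM := tmul S (t152 b) (t161 b)
noncomputable def v165 (x1 x2 : ℝ) : ℝ := v152 x1 x2 * v161 x1 x2
theorem h165 (h : In b E x1 x2) : Enc S E (t165 b) (v165 x1 x2) := enc_mul hS (h152 h) (h161 h)

def t167 (b : Bx) : TM := tsub (t164 b) (t165 b)
noncomputable def v167 (x1 x2 : ℝ) : ℝ := v164 x1 x2 - v165 x1 x2
theorem h167 (h : In b E x1 x2) : Enc S E (t167 b) (v167 x1 x2) := enc_sub (h164 h) (h165 h)

def t168 (b : Bx) : TM := tadd (t167 b) (t123 b)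
noncomputable def v168 (x1 x2 : ℝ) : ℝ := v167 x1 x2 + v123 x1 x2
theorem h168 (h : In b E x1 x2) : Enc S E (t168 b) (v168 x1 x2) := enc_add (h167 h) (h123 h)

def t170 (b : Bx) : TM := tmul S (t140 b) (t167 b)
noncomputable def v170 (x1 x2 : ℝ) : ℝ := v140 x1 x2 * v167 x1 x2
theorem h170 (h : In b E x1 x2) : Enc S E (t170 b) (v170 x1 x2) := enc_mul hS (h140 h) (h167 h)

def t171 (b : Bx) : TM := tmul S (t57 b) (t0 b)
noncomputable def v171 (x1 x2 : ℝ) : ℝ := v57 x1 x2 * v0 x1 x2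
theorem h171 (h : In b E x1 x2) : Enc S E (t171 b) (v171 x1 x2) := enc_mul hS (h57 h) (h0 h)

def t172 (b : Bx) : TM := tsub (t170 b) (t171 b)
noncomputable def v172 (x1 x2 : ℝ) : ℝ := v170 x1 x2 - v171 x1 x2
theorem h172 (h : In b E x1 x2) : Enc S E (t172 b) (v172 x1 x2) := enc_sub (h170 h) (h171 h)

def t178 (b : Bx) : TM := tsub (t3 b) (t7 b)
noncomputable def v178 (x1 x2 : ℝ) : ℝ := v3 x1 x2 - v7 x1 x2
theorem h178 (h : In b E x1 x2) : Enc S E (t178 b) (v178 x1 x2) := enc_sub (h3 h) (h7 h)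

def t179 (b : Bx) : TM := tsub (t2 b) (t24 b)
noncomputable def v179 (x1 x2 : ℝ) : ℝ := v2 x1 x2 - v24 x1 x2
theorem h179 (h : In b E x1 x2) : Enc S E (t179 b) (v179 x1 x2) := enc_sub (h2 h) (h24 h)

def t180 (b : Bx) : TM := qn_t (t179 b) (t140 b) (t138 b) (t172 b) (t168 b)
noncomputable def v180 (x1 x2 : ℝ) : ℝ := qn_v (v179 x1 x2) (v140 x1 x2) (v138 x1 x2) (v172 x1 x2) (v168 x1 x2)
theorem h180 (h : In b E x1 x2) : Enc S E (t180 b) (v180 x1 x2) := qn_enc (h179 h) (h140 h) (h138 h) (h172 h) (h168 h)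

def t181 (b : Bx) : TM := tscale 3 4 (t2 b)
noncomputable def v181 (x1 x2 : ℝ) : ℝ := ((3 : ℕ) : ℝ) / ((4 : ℕ) : ℝ) * v2 x1 x2
theorem h181 (h : In b E x1 x2) : Enc S E (t181 b) (v181 x1 x2) := enc_scale 3 (by norm_num) (h2 h)

def t183 (b : Bx) : TM := tsub (t7 b) (t181 b)
noncomputable def v183 (x1 x2 : ℝ) : ℝ := v7 x1 x2 - v181 x1 x2
theorem h183 (h : In b E x1 x2) : Enc S E (t183 b) (v183 x1 x2) := enc_sub (h7 h) (h181 h)

def t184 (b : Bx) : TM := tscale 1 4 (t2 b)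
noncomputable def v184 (x1 x2 : ℝ) : ℝ := ((1 : ℕ) : ℝ) / ((4 : ℕ) : ℝ) * v2 x1 x2
theorem h184 (h : In b E x1 x2) : Enc S E (t184 b) (v184 x1 x2) := enc_scale 1 (by norm_num) (h2 h)

def t186 (b : Bx) : TM := tsub (t184 b) (t26 b)
noncomputable def v186 (x1 x2 : ℝ) : ℝ := v184 x1 x2 - v26 x1 x2
theorem h186 (h : In b E x1 x2) : Enc S E (t186 b) (v186 x1 x2) := enc_sub (h184 h) (h26 h)

def t188 (b : Bx) : TM := tsub (t181 b) (t24 b)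
noncomputable def v188 (x1 x2 : ℝ) : ℝ := v181 x1 x2 - v24 x1 x2
theorem h188 (h : In b E x1 x2) : Enc S E (t188 b) (v188 x1 x2) := enc_sub (h181 h) (h24 h)

def t189 (_b : Bx) : TM := tconst (Nat.div (Nat.mul 1 S) 16) 0 1
noncomputable def v189 (_x1 _x2 : ℝ) : ℝ := ((1 : ℕ) : ℝ) / ((16 : ℕ) : ℝ)
theorem h189 (_h : In b E x1 x2) : Enc S E (t189 b) (v189 x1 x2) := enc_rat E 1 (by norm_num)

def t190 (b : Bx) : TM := tsub (t27 b) (t189 b)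
noncomputable def v190 (x1 x2 : ℝ) : ℝ := v27 x1 x2 - v189 x1 x2
theorem h190 (h : In b E x1 x2) : Enc S E (t190 b) (v190 x1 x2) := enc_sub (h27 h) (h189 h)

def t191 (b : Bx) : TM := tsub (t20 b) (t189 b)
noncomputable def v191 (x1 x2 : ℝ) : ℝ := v20 x1 x2 - v189 x1 x2
theorem h191 (h : In b E x1 x2) : Enc S E (t191 b) (v191 x1 x2) := enc_sub (h20 h) (h189 h)

def t192 (b : Bx) : TM := tsub (t7 b) (t24 b)
noncomputable def v192 (x1 x2 : ℝ) : ℝ := v7 x1 x2 - v24 x1 x2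
theorem h192 (h : In b E x1 x2) : Enc S E (t192 b) (v192 x1 x2) := enc_sub (h7 h) (h24 h)

def t193 (b : Bx) : TM := tsub (t5 b) (t43 b)
noncomputable def v193 (x1 x2 : ℝ) : ℝ := v5 x1 x2 - v43 x1 x2
theorem h193 (h : In b E x1 x2) : Enc S E (t193 b) (v193 x1 x2) := enc_sub (h5 h) (h43 h)

def t194 (b : Bx) : TM := tadd (t130 b) (t9 b)
noncomputable def v194 (x1 x2 : ℝ) : ℝ := v130 x1 x2 + v9 x1 x2
theorem h194 (h : In b E x1 x2) : Enc S E (t194 b) (v194 x1 x2) := enc_add (h130 h) (h9 h)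

def t195 (b : Bx) : TM := tneg (t194 b)
noncomputable def v195 (x1 x2 : ℝ) : ℝ := -(v194 x1 x2)
theorem h195 (h : In b E x1 x2) : Enc S E (t195 b) (v195 x1 x2) := enc_neg (h194 h)

def g0 (b : Bx) : Bool := and (pos (t63 b)) (and (pos (t23 b)) (and (pos (t55 b)) (and (pos (t66 b)) (and (pos (t81 b)) (and (pos (t76 b)) (and (pos (t100 b)) (and (pos (t112 b)) (and (pos (t114 b)) (and (pos (t37 b)) (and (pos (t157 b)) (or (pos (t20 b)) (pos (t180 b)))))))))))))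

def l0 (b : Bx) : Nat := cond (g0 b) 0 (pickb 1 (t180 b) b)

def P0 (x1 x2 : ℝ) : Prop := 0 < v63 x1 x2 ∧ 0 < v23 x1 x2 ∧ 0 < v55 x1 x2 ∧ 0 < v66 x1 x2 ∧ 0 < v81 x1 x2 ∧ 0 < v76 x1 x2 ∧ 0 < v100 x1 x2 ∧ 0 < v112 x1 x2 ∧ 0 < v114 x1 x2 ∧ 0 < v37 x1 x2 ∧ 0 < v157 x1 x2 ∧ (0 < v20 x1 x2 ∨ 0 < v180 x1 x2)

theorem l0_sound (h : In b E x1 x2) (e : l0 b = 0) : P0 x1 x2 := by
  have e1 : g0 b = true := by
    rcases e2 : g0 b with _ | _
    · unfold l0 at e; rw [e2, cond_false] at e; exact absurd e (pickb_ne _ _ _)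
    · rfl
  exact ⟨pos_sound hS (h63 h) (Bool.and_eq_true_iff.mp e1).1, ⟨pos_sound hS (h23 h) (Bool.and_eq_true_iff.mp (Bool.and_eq_true_iff.mp e1).2).1, ⟨pos_sound hS (h55 h) (Bool.and_eq_true_iff.mp (Bool.and_eq_true_iff.mp (Bool.and_eq_true_iff.mp e1).2).2).1, ⟨pos_sound hS (h66 h) (Bool.and_eq_true_iff.mp (Bool.and_eq_true_iff.mp (Bool.and_eq_true_iff.mp (Bool.and_eq_true_iff.mp e1).2).2).2).1, ⟨pos_sound hS (h81 h) (Bool.and_eq_true_iff.mp (Bool.and_eq_true_iff.mp (Bool.and_eq_true_iff.mp (Bool.and_eq_true_iff.mp (Bool.and_eq_true_iff.mp e1).2).2).2).2).1, ⟨pos_sound hS (h76 h) (Bool.and_eq_true_iff.mp (Bool.and_eq_true_iff.mp (Bool.and_eq_true_iff.mp (Bool.and_eq_true_iff.mp (Bool.and_eq_true_iff.mp (Bool.and_eq_true_iff.mp e1).2).2).2).2).2).1, ⟨pos_sound hS (h100 h) (Bool.and_eq_true_iff.mp (Bool.and_eq_true_iff.mp (Bool.and_eq_true_iff.mp (Bool.and_eq_true_iff.mp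 (Bool.and_eq_true_iff.mp (Bool.and_eq_true_iff.mp (Bool.and_eq_true_iff.mp e1).2).2).2).2).2).2).1, ⟨pos_sound hS (h112 h) (Bool.and_eq_true_iff.mp (Bool.and_eq_true_iff.mp (Bool.and_eq_true_iff.mp (Bool.and_eq_true_iff.mp (Bool.and_eq_true_iff.mp (Bool.and_eq_true_iff.mp (Bool.and_eq_true_iff.mp (Bool.and_eq_true_iff.mp e1).2).2).2).2).2).2).2).1, ⟨pos_sound hS (h114 h) (Bool.and_eq_true_iff.mp (Bool.and_eq_true_iff.mp (Bool.and_eq_true_iff.mp (Bool.and_eq_true_iff.mp (Bool.and_eq_true_iff.mp (Bool.and_eq_true_iff.mp (Bool.and_eq_true_iff.mp (Bool.and_eq_true_iff.mp (Bool.and_eq_true_iff.mp e1).2).2).2).2).2).2).2).2).1, ⟨pos_sound hS (h37 h) (Bool.and_eq_true_iff.mp (Bool.and_eq_true_iff.mp (Bool.and_eq_true_iff.mp (Bool.and_eq_true_iff.mp (Bool.and_eq_true_iff.mp (Bool.and_eq_true_iff.mp (Bool.and_eq_true_iff.mp (Bool.and_eq_true_iff.mp (Bool.and_eq_true_iff.mp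 (Bool.and_eq_true_iff.mp e1).2).2).2).2).2).2).2).2).2).1, ⟨pos_sound hS (h157 h) (Bool.and_eq_true_iff.mp (Bool.and_eq_true_iff.mp (Bool.and_eq_true_iff.mp (Bool.and_eq_true_iff.mp (Bool.and_eq_true_iff.mp (Bool.and_eq_true_iff.mp (Bool.and_eq_true_iff.mp (Bool.and_eq_true_iff.mp (Bool.and_eq_true_iff.mp (Bool.and_eq_true_iff.mp (Bool.and_eq_true_iff.mp e1).2).2).2).2).2).2).2).2).2).2).1, ((Bool.or_eq_true_iff.mp (Bool.and_eq_true_iff.mp (Bool.and_eq_true_iff.mp (Bool.and_eq_true_iff.mp (Bool.and_eq_true_iff.mp (Bool.and_eq_true_iff.mp (Bool.and_eq_true_iff.mp (Bool.and_eq_true_iff.mp (Bool.and_eq_true_iff.mp (Bool.and_eq_true_iff.mp (Bool.and_eq_true_iff.mp (Bool.and_eq_true_iff.mp e1).2).2).2).2).2).2).2).2).2).2).2).imp (fun a => pos_sound hS (h20 h) a) (fun a => pos_sound hS (h180 h) a))⟩⟩⟩⟩⟩⟩⟩⟩⟩⟩⟩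

def g1 (b : Bx) : Bool := or (pos (t178 b)) (or (pos (t183 b)) (or (pos (t186 b)) (or (pos (t141 b)) (or (pos (t188 b)) (or (pos (t190 b)) (or (pos (t191 b)) (or (pos (t192 b)) (or (pos (t193 b)) (pos (t195 b))))))))))

def l1 (b : Bx) : Nat := cond (g1 b) 0 (l0 b)

def P1 (x1 x2 : ℝ) : Prop := (0 < v178 x1 x2 ∨ 0 < v183 x1 x2 ∨ 0 < v186 x1 x2 ∨ 0 < v141 x1 x2 ∨ 0 < v188 x1 x2 ∨ 0 < v190 x1 x2 ∨ 0 < v191 x1 x2 ∨ 0 < v192 x1 x2 ∨ 0 < v193 x1 x2 ∨ 0 < v195 x1 x2) ∨ (P0 x1 x2)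

theorem l1_sound (h : In b E x1 x2) (e : l1 b = 0) : P1 x1 x2 := by
  unfold l1 at e
  rcases e1 : g1 b with _ | _
  · rw [e1, cond_false] at e
    have z0 : l0 b = 0 := e
    exact Or.inr (l0_sound h z0)
  · exact Or.inl (((Bool.or_eq_true_iff.mp e1).imp (fun a => pos_sound hS (h178 h) a) (fun a => ((Bool.or_eq_true_iff.mp a).imp (fun a => pos_sound hS (h183 h) a) (fun a => ((Bool.or_eq_true_iff.mp a).imp (fun a => pos_sound hS (h186 h) a) (fun a => ((Bool.or_eq_true_iff.mp a).imp (fun a => pos_sound hS (h141 h) a) (fun a => ((Bool.or_eq_true_iff.mp a).imp (fun a => pos_sound hS (h188 h) a) (fun a => ((Bool.or_eq_true_iff.mp a).imp (fun a => pos_sound hS (h190 h) a) (fun a => ((Bool.or_eq_true_iff.mp a).imp (fun a => pos_sound hS (h191 h) a) (fun a => ((Bool.or_eq_true_iff.mp a).imp (fun a => pos_sound hS (h192 h) a) (fun a => ((Bool.or_eq_true_iff.mp a).imp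 (fun a => pos_sound hS (h193 h) a) (fun a => pos_sound hS (h195 h) a)))))))))))))))))))

def f (b : Bx) : Nat := l1 b

/-- the statement -/
def Q (x1 x2 : ℝ) : Prop := P1 x1 x2

theorem f_sound (b : Bx) (hb : f b = 0) (x1 x2 : ℝ) (hm : Mem S b x1 x2) : Q x1 x2 := by
  obtain ⟨E, h⟩ := pt_of_mem hm
  have h : In b E x1 x2 := h
  unfold f at hb
  have e := hb
  have z1 : l1 b = 0 := e
  exact (l1_sound h z1)

/-- the box -/
def b0 : Bx := ⟨268435456, 0, 268435457, 0, 615093004, 615093005⟩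

theorem chk_all {n : ℕ} {b : Bx} (h : chk f n b = true) (x1 x2 : ℝ) (hm : Mem S b x1 x2) : Q x1 x2 :=
  chk_sound (fun b hb x1 x2 hm => f_sound b hb x1 x2 hm) n b h x1 x2 hm


end Pool.Agent.Strip051.LB.ChB03V1_pm_213
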