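import Pool.Agent.Strip051.LB.ChB03V1_pm_213.Defs
import Pool.Agent.Strip051.LB.Slope
import Pool.Agent.Strip051.LB.Star
import Pool.Agent.Strip051.LB.Cf

/-! # LINE tight chart ChB03V1_pm_213: slopes -/

namespace Pool.Agent.Strip051.LB.ChB03V1_pm_213

open Pool.Agent.Strip051.LB Pool.Agent.Strip051.LB.Fn Pool.Agent.Strip051.LB.Fc Pool.Agent.StripNear

set_option maxRecDepth 100000
set_option linter.all false

noncomputable def v29 (x1 x2 : ℝ) : ℝ := v2 x1 x2 * v1 x1 x2

noncomputable def v30 (x1 x2 : ℝ) : ℝ := -(v29 x1 x2)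

noncomputable def v31 (x1 x2 : ℝ) : ℝ := v30 x1 x2 - v24 x1 x2

noncomputable def v35 (x1 x2 : ℝ) : ℝ := v31 x1 x2 * v34 x1 x2

noncomputable def v39 (x1 x2 : ℝ) : ℝ := v35 x1 x2 * v38 x1 x2

noncomputable def v44 (x1 x2 : ℝ) : ℝ := v43 x1 x2 - v5 x1 x2

noncomputable def v45 (x1 x2 : ℝ) : ℝ := -(v5 x1 x2)

noncomputable def v48 (x1 x2 : ℝ) : ℝ := (v47 x1 x2) ^ 2

noncomputable def v50 (x1 x2 : ℝ) : ℝ := -(v49 x1 x2)

noncomputable def v51 (x1 x2 : ℝ) : ℝ := (v18 x1 x2) ^ 2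

noncomputable def v53 (x1 x2 : ℝ) : ℝ := -(v52 x1 x2)

noncomputable def v54 (x1 x2 : ℝ) : ℝ := v22 x1 x2 - v51 x1 x2

noncomputable def v59 (x1 x2 : ℝ) : ℝ := (v58 x1 x2) ^ 2

noncomputable def v62 (x1 x2 : ℝ) : ℝ := v48 x1 x2 + v59 x1 x2

noncomputable def v64 (x1 x2 : ℝ) : ℝ := v62 x1 x2 - v5 x1 x2

noncomputable def v69 (x1 x2 : ℝ) : ℝ := ((2 : ℕ) : ℝ) * v67 x1 x2

noncomputable def v70 (x1 x2 : ℝ) : ℝ := v5 x1 x2 + v69 x1 x2

noncomputable def v73 (x1 x2 : ℝ) : ℝ := v70 x1 x2 * v72 x1 x2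

noncomputable def v78 (x1 x2 : ℝ) : ℝ := v73 x1 x2 * v77 x1 x2

noncomputable def v79 (x1 x2 : ℝ) : ℝ := v5 x1 x2 - v59 x1 x2

noncomputable def v80 (x1 x2 : ℝ) : ℝ := -(v61 x1 x2)

noncomputable def v84 (x1 x2 : ℝ) : ℝ := -(v83 x1 x2)

noncomputable def v87 (x1 x2 : ℝ) : ℝ := -(v86 x1 x2)

noncomputable def v105 (x1 x2 : ℝ) : ℝ := -(v104 x1 x2)

noncomputable def v106 (x1 x2 : ℝ) : ℝ := v93 x1 x2 * v102 x1 x2

noncomputable def v115 (x1 x2 : ℝ) : ℝ := v65 x1 x2 - v67 x1 x2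

noncomputable def v116 (x1 x2 : ℝ) : ℝ := v115 x1 x2 * v111 x1 x2

noncomputable def v117 (x1 x2 : ℝ) : ℝ := v78 x1 x2 + v116 x1 x2

noncomputable def v118 (x1 x2 : ℝ) : ℝ := -(v117 x1 x2)

noncomputable def v119 (x1 x2 : ℝ) : ℝ := -(v106 x1 x2)

noncomputable def v124 (x1 x2 : ℝ) : ℝ := -(v123 x1 x2)

noncomputable def v131 (x1 x2 : ℝ) : ℝ := v0 x1 x2 * v19 x1 x2

noncomputable def v133 (x1 x2 : ℝ) : ℝ := v18 x1 x2 * v7 x1 x2

noncomputable def v134 (x1 x2 : ℝ) : ℝ := -(v7 x1 x2)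

noncomputable def v135 (x1 x2 : ℝ) : ℝ := v131 x1 x2 - v133 x1 x2

noncomputable def v137 (x1 x2 : ℝ) : ℝ := v135 x1 x2 * v128 x1 x2

noncomputable def v139 (x1 x2 : ℝ) : ℝ := v137 x1 x2 - v9 x1 x2

noncomputable def v142 (x1 x2 : ℝ) : ℝ := v24 x1 x2 - v2 x1 x2

noncomputable def v144 (x1 x2 : ℝ) : ℝ := -(v2 x1 x2)

noncomputable def v162 (x1 x2 : ℝ) : ℝ := -(v161 x1 x2)

noncomputable def v163 (x1 x2 : ℝ) : ℝ := v152 x1 x2 * v159 x1 x2

noncomputable def v169 (x1 x2 : ℝ) : ℝ := v19 x1 x2 - v2 x1 x2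

noncomputable def v196 (x1 x2 : ℝ) : ℝ := v58 x1 x2 - v3 x1 x2

structure Cx (x1 x2 : ℝ) : Prop where
  hc : v7 x1 x2 ^ 2 + x1 ^ 2 = 1
  p23 : 0 < v23 x1 x2
  p55 : 0 < v55 x1 x2
  p66 : 0 < v66 x1 x2
  p81 : 0 < v81 x1 x2
  p76 : 0 < v76 x1 x2
  p100 : 0 < v100 x1 x2
  p112 : 0 < v112 x1 x2
  p114 : 0 < v114 x1 x2
  p37 : 0 < v37 x1 x2
  p157 : 0 < v157 x1 x2

variable {x1 x2 : ℝ}

theorem s3q (x1 x2 : ℝ) : v2 x1 x2 ^ 2 = 3 := by
  rw [v2]; exact s3sq

theorem s3ne (x1 x2 : ℝ) : v2 x1 x2 ≠ 0 := by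
  rw [v2]; positivity

theorem s1 (c : Cx x1 x2) : v1 x1 x2 = v18 x1 x2 + v27 x1 x2 * v45 x1 x2 := by
  simp only [v1, v5, v27, v45]
  (try push_cast)
  first | ring | grind

theorem s21 (c : Cx x1 x2) : v21 x1 x2 = v51 x1 x2 + v27 x1 x2 * v53 x1 x2 := by
  have a0 : (v1 x1 x2 + v18 x1 x2) * v1 x1 x2 = (v1 x1 x2 + v18 x1 x2) * (v18 x1 x2 + v27 x1 x2 * v45 x1 x2) := congrArg (fun z => (v1 x1 x2 + v18 x1 x2) * z) (s1 c)
  try simp only [v1, v5, v21, v27, v45, v51, v52, v53] at a0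
  simp only [v1, v5, v21, v27, v45, v51, v52, v53]
  (try push_cast at a0 ⊢)
  first | linear_combination a0 | ring | grind

theorem s23 (c : Cx x1 x2) : v23 x1 x2 = v54 x1 x2 + v27 x1 x2 * v52 x1 x2 := by
  have a1 := s21 c
  try simp only [v1, v22, v23, v27, v52, v53, v54] at a1
  simp only [v1, v22, v23, v27, v52, v53, v54]
  (try push_cast at a1 ⊢)
  first | linear_combination -a1 | ring | grind

theorem q24 (c : Cx x1 x2) : v54 x1 x2 = v19 x1 x2 ^ 2 := by
  have hc := c.hc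
  have h3 := s3q x1 x2
  simp only [v0, v3, v10, v11, v13, v14, v16, v17, v18, v19, v22, v51, v54] at hc ⊢
  push_cast at hc ⊢
  grind

theorem s24 (c : Cx x1 x2) : v24 x1 x2 = v19 x1 x2 + v27 x1 x2 * v57 x1 x2 := by
  have a0 := s23 c
  have e : 0 < Real.sqrt (v23 x1 x2) + v19 x1 x2 := by
    have e := c.p55
    simp only [v22, v23, v24, v55] at e ⊢
    push_cast at e ⊢
    linarith
  have b := sl_sqrt a0 (q24 c) (le_of_lt c.p23) e
  clear a0
  try simp only [v1, v22, v23, v24, v27, v52, v54, v55, v56, v57] at b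
  simp only [v1, v22, v23, v24, v27, v52, v54, v55, v56, v57]
  (try push_cast at b ⊢)
  first | linear_combination b | ring | grind

theorem s25 (c : Cx x1 x2) : v25 x1 x2 = v47 x1 x2 + v27 x1 x2 * v45 x1 x2 := by
  have a0 := s1 c
  try simp only [v0, v1, v5, v25, v27, v45, v47] at a0
  simp only [v0, v1, v5, v25, v27, v45, v47]
  (try push_cast at a0 ⊢)
  first | linear_combination a0 | ring | grind

theorem s26 (c : Cx x1 x2) : v26 x1 x2 = v58 x1 x2 + v27 x1 x2 * v57 x1 x2 := by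
  have a0 := s24 c
  try simp only [v1, v26, v27, v58] at a0
  simp only [v1, v26, v27, v58]
  (try push_cast at a0 ⊢)
  first | linear_combination a0 | ring | grind

theorem s29 (c : Cx x1 x2) : v29 x1 x2 = v143 x1 x2 + v27 x1 x2 * v144 x1 x2 := by
  have a1 : (v2 x1 x2) * v1 x1 x2 = (v2 x1 x2) * (v18 x1 x2 + v27 x1 x2 * v45 x1 x2) := congrArg (fun z => (v2 x1 x2) * z) (s1 c)
  try simp only [v1, v2, v5, v27, v29, v45, v143, v144] at a1
  simp only [v1, v2, v5, v27, v29, v45, v143, v144]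
  (try push_cast at a1 ⊢)
  first | linear_combination a1 | ring | grind

theorem s30 (c : Cx x1 x2) : v30 x1 x2 = v145 x1 x2 + v27 x1 x2 * v2 x1 x2 := by
  have a0 := s29 c
  try simp only [v1, v2, v27, v30, v144, v145] at a0
  simp only [v1, v2, v27, v30, v144, v145]
  (try push_cast at a0 ⊢)
  first | linear_combination -a0 | ring | grind

theorem s31 (c : Cx x1 x2) : v31 x1 x2 = v146 x1 x2 + v27 x1 x2 * v147 x1 x2 := by
  have a0 := s30 c
  have a1 := s24 c
  try simp only [v1, v2, v27, v30, v31, v145, v146, v147] at a0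
  try simp only [v1, v2, v27, v30, v31, v145, v146, v147] at a1
  simp only [v1, v2, v27, v30, v31, v145, v146, v147]
  (try push_cast at a0 a1 ⊢)
  first | linear_combination a0 - a1 | ring | grind

theorem s32 (c : Cx x1 x2) : v32 x1 x2 = v148 x1 x2 + v27 x1 x2 * v5 x1 x2 := by
  have a1 := s1 c
  try simp only [v1, v5, v22, v27, v32, v45, v148] at a1
  simp only [v1, v5, v22, v27, v32, v45, v148]
  (try push_cast at a1 ⊢)
  first | linear_combination -a1 | ring | grind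

theorem s33 (c : Cx x1 x2) : v33 x1 x2 = v149 x1 x2 + v27 x1 x2 * v90 x1 x2 := by
  have a1 : (v2 x1 x2) * v24 x1 x2 = (v2 x1 x2) * (v19 x1 x2 + v27 x1 x2 * v57 x1 x2) := congrArg (fun z => (v2 x1 x2) * z) (s24 c)
  try simp only [v1, v2, v27, v33, v90, v149] at a1
  simp only [v1, v2, v27, v33, v90, v149]
  (try push_cast at a1 ⊢)
  first | linear_combination a1 | ring | grind

theorem s34 (c : Cx x1 x2) : v34 x1 x2 = v150 x1 x2 + v27 x1 x2 * v151 x1 x2 := by
  have a0 := s32 c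
  have a1 := s33 c
  try simp only [v1, v5, v22, v27, v32, v34, v148, v150, v151] at a0
  try simp only [v1, v5, v22, v27, v32, v34, v148, v150, v151] at a1
  simp only [v1, v5, v22, v27, v32, v34, v148, v150, v151]
  (try push_cast at a0 a1 ⊢)
  first | linear_combination a0 - a1 | ring | grind

theorem s35 (c : Cx x1 x2) : v35 x1 x2 = v152 x1 x2 + v27 x1 x2 * v155 x1 x2 := by
  have a0 : (v34 x1 x2) * v31 x1 x2 = (v34 x1 x2) * (v146 x1 x2 + v27 x1 x2 * v147 x1 x2) := congrArg (fun z => (v34 x1 x2) * z) (s31 c)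
  have a1 : (v146 x1 x2) * v34 x1 x2 = (v146 x1 x2) * (v150 x1 x2 + v27 x1 x2 * v151 x1 x2) := congrArg (fun z => (v146 x1 x2) * z) (s34 c)
  try simp only [v1, v2, v5, v22, v27, v30, v31, v32, v34, v35, v145, v146, v147, v148, v150, v151, v152, v153, v154, v155] at a0
  try simp only [v1, v2, v5, v22, v27, v30, v31, v32, v34, v35, v145, v146, v147, v148, v150, v151, v152, v153, v154, v155] at a1
  simp only [v1, v2, v5, v22, v27, v30, v31, v32, v34, v35, v145, v146, v147, v148, v150, v151, v152, v153, v154, v155]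
  (try push_cast at a0 a1 ⊢)
  first | linear_combination a0 + a1 | ring | grind

theorem s36 (c : Cx x1 x2) : v36 x1 x2 = v156 x1 x2 + v27 x1 x2 * v57 x1 x2 := by
  have a0 := s24 c
  try simp only [v1, v2, v3, v27, v36, v156] at a0
  simp only [v1, v2, v3, v27, v36, v156]
  (try push_cast at a0 ⊢)
  first | linear_combination a0 | ring | grind

theorem s37 (c : Cx x1 x2) : v37 x1 x2 = v157 x1 x2 + v27 x1 x2 * v158 x1 x2 := by
  have a0 := s36 c
  try simp only [v1, v2, v3, v27, v36, v37, v156, v157, v158] at a0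
  simp only [v1, v2, v3, v27, v36, v37, v156, v157, v158]
  (try push_cast at a0 ⊢)
  first | linear_combination (4 : ℝ) * a0 | ring | grind

theorem s38 (c : Cx x1 x2) : v38 x1 x2 = v159 x1 x2 + v27 x1 x2 * v162 x1 x2 := by
  have a0 := s37 c
  have b := sl_inv a0 (c.p37).ne' (c.p157).ne'
  clear a0
  try simp only [v1, v2, v3, v27, v36, v37, v38, v156, v157, v158, v159, v160, v161, v162] at b
  simp only [v1, v2, v3, v27, v36, v37, v38, v156, v157, v158, v159, v160, v161, v162]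
  (try push_cast at b ⊢)
  first | linear_combination b | ring | grind

theorem s39 (c : Cx x1 x2) : v39 x1 x2 = v163 x1 x2 + v27 x1 x2 * v167 x1 x2 := by
  have a0 : (v38 x1 x2) * v35 x1 x2 = (v38 x1 x2) * (v152 x1 x2 + v27 x1 x2 * v155 x1 x2) := congrArg (fun z => (v38 x1 x2) * z) (s35 c)
  have a1 : (v152 x1 x2) * v38 x1 x2 = (v152 x1 x2) * (v159 x1 x2 + v27 x1 x2 * v162 x1 x2) := congrArg (fun z => (v152 x1 x2) * z) (s38 c)
  try simp only [v1, v27, v39, v155, v162, v163, v164, v165, v167] at a0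
  try simp only [v1, v27, v39, v155, v162, v163, v164, v165, v167] at a1
  simp only [v1, v27, v39, v155, v162, v163, v164, v165, v167]
  (try push_cast at a0 a1 ⊢)
  first | linear_combination a0 + a1 | ring | grind

theorem s41 (c : Cx x1 x2) : v41 x1 x2 = v48 x1 x2 + v27 x1 x2 * v50 x1 x2 := by
  have a0 : (v25 x1 x2 + v47 x1 x2) * v25 x1 x2 = (v25 x1 x2 + v47 x1 x2) * (v47 x1 x2 + v27 x1 x2 * v45 x1 x2) := congrArg (fun z => (v25 x1 x2 + v47 x1 x2) * z) (s25 c)
  try simp only [v0, v1, v5, v25, v27, v41, v45, v47, v48, v49, v50] at a0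
  simp only [v0, v1, v5, v25, v27, v41, v45, v47, v48, v49, v50]
  (try push_cast at a0 ⊢)
  first | linear_combination a0 | ring | grind

theorem s42 (c : Cx x1 x2) : v42 x1 x2 = v59 x1 x2 + v27 x1 x2 * v61 x1 x2 := by
  have a0 : (v26 x1 x2 + v58 x1 x2) * v26 x1 x2 = (v26 x1 x2 + v58 x1 x2) * (v58 x1 x2 + v27 x1 x2 * v57 x1 x2) := congrArg (fun z => (v26 x1 x2 + v58 x1 x2) * z) (s26 c)
  try simp only [v1, v26, v27, v42, v58, v59, v60, v61] at a0
  simp only [v1, v26, v27, v42, v58, v59, v60, v61]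
  (try push_cast at a0 ⊢)
  first | linear_combination a0 | ring | grind

theorem s43 (c : Cx x1 x2) : v43 x1 x2 = v62 x1 x2 + v27 x1 x2 * v63 x1 x2 := by
  have a0 := s41 c
  have a1 := s42 c
  try simp only [v0, v1, v25, v27, v43, v47, v49, v50, v62, v63] at a0
  try simp only [v0, v1, v25, v27, v43, v47, v49, v50, v62, v63] at a1
  simp only [v0, v1, v25, v27, v43, v47, v49, v50, v62, v63]
  (try push_cast at a0 a1 ⊢)
  first | linear_combination a0 + a1 | ring | grind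

theorem s44 (c : Cx x1 x2) : v44 x1 x2 = v64 x1 x2 + v27 x1 x2 * v63 x1 x2 := by
  have a0 := s43 c
  try simp only [v0, v1, v5, v25, v27, v43, v44, v47, v49, v62, v63, v64] at a0
  simp only [v0, v1, v5, v25, v27, v43, v44, v47, v49, v62, v63, v64]
  (try push_cast at a0 ⊢)
  first | linear_combination a0 | ring | grind

theorem s66 (c : Cx x1 x2) : v66 x1 x2 = v79 x1 x2 + v27 x1 x2 * v80 x1 x2 := by
  have a1 := s42 c
  try simp only [v1, v5, v27, v66, v79, v80] at a1
  simp only [v1, v5, v27, v66, v79, v80]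
  (try push_cast at a1 ⊢)
  first | linear_combination -a1 | ring | grind

theorem q67 (c : Cx x1 x2) : v79 x1 x2 = v68 x1 x2 ^ 2 := by
  have hc := c.hc
  have h3 := s3q x1 x2
  simp only [v0, v3, v5, v10, v11, v17, v19, v58, v59, v68, v79] at hc ⊢
  push_cast at hc ⊢
  grind

theorem s67 (c : Cx x1 x2) : v67 x1 x2 = v68 x1 x2 + v27 x1 x2 * v84 x1 x2 := by
  have a0 := s66 c
  have e : 0 < Real.sqrt (v66 x1 x2) + v68 x1 x2 := by
    have e := c.p81
    simp only [v0, v5, v10, v66, v67, v68, v81] at e ⊢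
    push_cast at e ⊢
    linarith
  have b := sl_sqrt a0 (q67 c) (le_of_lt c.p66) e
  clear a0
  try simp only [v0, v1, v5, v10, v27, v66, v67, v68, v79, v80, v81, v82, v83, v84] at b
  simp only [v0, v1, v5, v10, v27, v66, v67, v68, v79, v80, v81, v82, v83, v84]
  (try push_cast at b ⊢)
  first | linear_combination b | ring | grind

theorem s69 (c : Cx x1 x2) : v69 x1 x2 = v85 x1 x2 + v27 x1 x2 * v87 x1 x2 := by
  have a0 := s67 c
  try simp only [v0, v1, v10, v27, v68, v69, v84, v85, v86, v87] at a0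
  simp only [v0, v1, v10, v27, v68, v69, v84, v85, v86, v87]
  (try push_cast at a0 ⊢)
  first | linear_combination (2 : ℝ) * a0 | ring | grind

theorem s70 (c : Cx x1 x2) : v70 x1 x2 = v88 x1 x2 + v27 x1 x2 * v87 x1 x2 := by
  have a1 := s69 c
  try simp only [v0, v1, v5, v10, v27, v68, v69, v70, v85, v86, v87, v88] at a1
  simp only [v0, v1, v5, v10, v27, v68, v69, v70, v85, v86, v87, v88]
  (try push_cast at a1 ⊢)
  first | linear_combination a1 | ring | grind

theorem s71 (c : Cx x1 x2) : v71 x1 x2 = v89 x1 x2 + v27 x1 x2 * v90 x1 x2 := by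
  have a1 : (v2 x1 x2) * v26 x1 x2 = (v2 x1 x2) * (v58 x1 x2 + v27 x1 x2 * v57 x1 x2) := congrArg (fun z => (v2 x1 x2) * z) (s26 c)
  try simp only [v1, v2, v26, v27, v58, v71, v89, v90] at a1
  simp only [v1, v2, v26, v27, v58, v71, v89, v90]
  (try push_cast at a1 ⊢)
  first | linear_combination a1 | ring | grind

theorem s72 (c : Cx x1 x2) : v72 x1 x2 = v91 x1 x2 + v27 x1 x2 * v92 x1 x2 := by
  have a0 := s71 c
  have a1 := s67 c
  try simp only [v0, v1, v10, v27, v68, v72, v84, v91, v92] at a0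
  try simp only [v0, v1, v10, v27, v68, v72, v84, v91, v92] at a1
  simp only [v0, v1, v10, v27, v68, v72, v84, v91, v92]
  (try push_cast at a0 a1 ⊢)
  first | linear_combination a0 - a1 | ring | grind

theorem s73 (c : Cx x1 x2) : v73 x1 x2 = v93 x1 x2 + v27 x1 x2 * v97 x1 x2 := by
  have a0 : (v72 x1 x2) * v70 x1 x2 = (v72 x1 x2) * (v88 x1 x2 + v27 x1 x2 * v87 x1 x2) := congrArg (fun z => (v72 x1 x2) * z) (s70 c)
  have a1 : (v88 x1 x2) * v72 x1 x2 = (v88 x1 x2) * (v91 x1 x2 + v27 x1 x2 * v92 x1 x2) := congrArg (fun z => (v88 x1 x2) * z) (s72 c)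
  try simp only [v0, v1, v5, v10, v27, v68, v69, v70, v72, v73, v85, v86, v87, v88, v91, v92, v93, v94, v96, v97] at a0
  try simp only [v0, v1, v5, v10, v27, v68, v69, v70, v72, v73, v85, v86, v87, v88, v91, v92, v93, v94, v96, v97] at a1
  simp only [v0, v1, v5, v10, v27, v68, v69, v70, v72, v73, v85, v86, v87, v88, v91, v92, v93, v94, v96, v97]
  (try push_cast at a0 a1 ⊢)
  first | linear_combination a0 + a1 | ring | grind

theorem s74 (c : Cx x1 x2) : v74 x1 x2 = v98 x1 x2 + v27 x1 x2 * v90 x1 x2 := by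
  have a1 := s71 c
  try simp only [v1, v5, v27, v74, v98] at a1
  simp only [v1, v5, v27, v74, v98]
  (try push_cast at a1 ⊢)
  first | linear_combination a1 | ring | grind

theorem s75 (c : Cx x1 x2) : v75 x1 x2 = v99 x1 x2 + v27 x1 x2 * v92 x1 x2 := by
  have a0 := s74 c
  have a1 := s67 c
  try simp only [v0, v1, v5, v10, v27, v68, v74, v75, v84, v92, v98, v99] at a0
  try simp only [v0, v1, v5, v10, v27, v68, v74, v75, v84, v92, v98, v99] at a1
  simp only [v0, v1, v5, v10, v27, v68, v74, v75, v84, v92, v98, v99]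
  (try push_cast at a0 a1 ⊢)
  first | linear_combination a0 - a1 | ring | grind

theorem s76 (c : Cx x1 x2) : v76 x1 x2 = v100 x1 x2 + v27 x1 x2 * v101 x1 x2 := by
  have a0 := s75 c
  try simp only [v0, v1, v5, v10, v27, v68, v74, v75, v76, v92, v98, v99, v100, v101] at a0
  simp only [v0, v1, v5, v10, v27, v68, v74, v75, v76, v92, v98, v99, v100, v101]
  (try push_cast at a0 ⊢)
  first | linear_combination (2 : ℝ) * a0 | ring | grind

theorem s77 (c : Cx x1 x2) : v77 x1 x2 = v102 x1 x2 + v27 x1 x2 * v105 x1 x2 := by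
  have a0 := s76 c
  have b := sl_inv a0 (c.p76).ne' (c.p100).ne'
  clear a0
  try simp only [v0, v1, v5, v10, v27, v68, v74, v75, v76, v77, v92, v98, v99, v100, v101, v102, v103, v104, v105] at b
  simp only [v0, v1, v5, v10, v27, v68, v74, v75, v76, v77, v92, v98, v99, v100, v101, v102, v103, v104, v105]
  (try push_cast at b ⊢)
  first | linear_combination b | ring | grind

theorem s78 (c : Cx x1 x2) : v78 x1 x2 = v106 x1 x2 + v27 x1 x2 * v110 x1 x2 := by
  have a0 : (v77 x1 x2) * v73 x1 x2 = (v77 x1 x2) * (v93 x1 x2 + v27 x1 x2 * v97 x1 x2) := congrArg (fun z => (v77 x1 x2) * z) (s73 c)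
  have a1 : (v93 x1 x2) * v77 x1 x2 = (v93 x1 x2) * (v102 x1 x2 + v27 x1 x2 * v105 x1 x2) := congrArg (fun z => (v93 x1 x2) * z) (s77 c)
  try simp only [v1, v27, v78, v97, v105, v106, v107, v108, v110] at a0
  try simp only [v1, v27, v78, v97, v105, v106, v107, v108, v110] at a1
  simp only [v1, v27, v78, v97, v105, v106, v107, v108, v110]
  (try push_cast at a0 a1 ⊢)
  first | linear_combination a0 + a1 | ring | grind

theorem s125 (c : Cx x1 x2) : v125 x1 x2 = v131 x1 x2 + v27 x1 x2 * v132 x1 x2 := by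
  have a1 : (v0 x1 x2) * v24 x1 x2 = (v0 x1 x2) * (v19 x1 x2 + v27 x1 x2 * v57 x1 x2) := congrArg (fun z => (v0 x1 x2) * z) (s24 c)
  try simp only [v0, v1, v27, v125, v131, v132] at a1
  simp only [v0, v1, v27, v125, v131, v132]
  (try push_cast at a1 ⊢)
  first | linear_combination a1 | ring | grind

theorem s126 (c : Cx x1 x2) : v126 x1 x2 = v133 x1 x2 + v27 x1 x2 * v134 x1 x2 := by
  have a0 : (v7 x1 x2) * v1 x1 x2 = (v7 x1 x2) * (v18 x1 x2 + v27 x1 x2 * v45 x1 x2) := congrArg (fun z => (v7 x1 x2) * z) (s1 c)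
  try simp only [v1, v5, v27, v45, v126, v133, v134] at a0
  simp only [v1, v5, v27, v45, v126, v133, v134]
  (try push_cast at a0 ⊢)
  first | linear_combination a0 | ring | grind

theorem s127 (c : Cx x1 x2) : v127 x1 x2 = v135 x1 x2 + v27 x1 x2 * v136 x1 x2 := by
  have a0 := s125 c
  have a1 := s126 c
  try simp only [v1, v27, v127, v134, v135, v136] at a0
  try simp only [v1, v27, v127, v134, v135, v136] at a1
  simp only [v1, v27, v127, v134, v135, v136]
  (try push_cast at a0 a1 ⊢)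
  first | linear_combination a0 - a1 | ring | grind

theorem s129 (c : Cx x1 x2) : v129 x1 x2 = v137 x1 x2 + v27 x1 x2 * v138 x1 x2 := by
  have a0 : (v128 x1 x2) * v127 x1 x2 = (v128 x1 x2) * (v135 x1 x2 + v27 x1 x2 * v136 x1 x2) := congrArg (fun z => (v128 x1 x2) * z) (s127 c)
  try simp only [v1, v27, v127, v129, v135, v136, v137, v138] at a0
  simp only [v1, v27, v127, v129, v135, v136, v137, v138]
  (try push_cast at a0 ⊢)
  first | linear_combination a0 | ring | grind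

theorem s130 (c : Cx x1 x2) : v130 x1 x2 = v139 x1 x2 + v27 x1 x2 * v138 x1 x2 := by
  have a0 := s129 c
  try simp only [v1, v9, v27, v130, v139] at a0
  simp only [v1, v9, v27, v130, v139]
  (try push_cast at a0 ⊢)
  first | linear_combination a0 | ring | grind

theorem s141 (c : Cx x1 x2) : v141 x1 x2 = v196 x1 x2 + v27 x1 x2 * v57 x1 x2 := by
  have a0 := s26 c
  try simp only [v1, v2, v3, v26, v27, v58, v141, v196] at a0
  simp only [v1, v2, v3, v26, v27, v58, v141, v196]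
  (try push_cast at a0 ⊢)
  first | linear_combination a0 | ring | grind

theorem s142 (c : Cx x1 x2) : v142 x1 x2 = v169 x1 x2 + v27 x1 x2 * v57 x1 x2 := by
  have a0 := s24 c
  try simp only [v1, v2, v27, v142, v169] at a0
  simp only [v1, v2, v27, v142, v169]
  (try push_cast at a0 ⊢)
  first | linear_combination a0 | ring | grind

theorem bD (c : Cx x1 x2) : v64 x1 x2 = 0 := by
  have hc := c.hc
  have h3 := s3q x1 x2
  simp only [v0, v3, v5, v10, v11, v13, v14, v16, v17, v18, v19, v47, v48, v58, v59, v62, v64] at hc ⊢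
  push_cast at hc ⊢
  grind

theorem sD (c : Cx x1 x2) : v44 x1 x2 = v27 x1 x2 * v63 x1 x2 := by
  have h := s44 c
  rw [bD c, zero_add] at h
  exact h

theorem s118 (c : Cx x1 x2) : v118 x1 x2 = v119 x1 x2 + v27 x1 x2 * v124 x1 x2 := by
  have hA := s78 c
  have hd := sD c
  have hs := c.p112
  have hc : v67 x1 x2 ^ 2 = v66 x1 x2 := by
    rw [v67]; exact Real.sq_sqrt (le_of_lt c.p66)
  have hx : v65 x1 x2 - v67 x1 x2 = v44 x1 x2 * (v112 x1 x2)⁻¹ := by
    have g : v65 x1 x2 ^ 2 - v67 x1 x2 ^ 2 = v44 x1 x2 := by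
      rw [hc]; simp only [v0, v1, v5, v25, v26, v41, v42, v43, v44, v65, v66, v112]; push_cast; ring
    have g3 : v112 x1 x2 = v65 x1 x2 + v67 x1 x2 := by
      simp only [v0, v1, v5, v25, v26, v41, v42, v43, v44, v65, v66, v112]; try push_cast
      try ring
    have g2 : 0 < v65 x1 x2 + v67 x1 x2 := by rw [← g3]; exact hs
    rw [g3]; exact diff_of_sq g g2
  have hy : v111 x1 x2 * (v65 x1 x2 - v67 x1 x2) = v111 x1 x2 * (v44 x1 x2 * (v112 x1 x2)⁻¹) := congrArg (fun z => v111 x1 x2 * z) hx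
  have hK : v111 x1 x2 * (v112 x1 x2)⁻¹ * v44 x1 x2 = v111 x1 x2 * (v112 x1 x2)⁻¹ * (v27 x1 x2 * v63 x1 x2) := congrArg (fun z => v111 x1 x2 * (v112 x1 x2)⁻¹ * z) hd
  try simp only [v0, v1, v5, v25, v27, v43, v44, v47, v49, v63, v65, v110, v112, v115, v116, v117, v118, v119, v120, v121, v122, v123, v124] at hA
  try simp only [v0, v1, v5, v25, v27, v43, v44, v47, v49, v63, v65, v110, v112, v115, v116, v117, v118, v119, v120, v121, v122, v123, v124] at hy
  try simp only [v0, v1, v5, v25, v27, v43, v44, v47, v49, v63, v65, v110, v112, v115, v116, v117, v118, v119, v120, v121, v122, v123, v124] at hK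
  simp only [v0, v1, v5, v25, v27, v43, v44, v47, v49, v63, v65, v110, v112, v115, v116, v117, v118, v119, v120, v121, v122, v123, v124]
  (try push_cast at hA hy hK ⊢)
  first | linear_combination -(hA + hy + hK) | grind

theorem bE (c : Cx x1 x2) : v139 x1 x2 = 0 := by
  have hc := c.hc
  have h3 := s3q x1 x2
  have g0 : v2 x1 x2 ≠ 0 := s3ne x1 x2
  simp only [v0, v3, v9, v10, v11, v13, v14, v16, v17, v18, v19, v128, v131, v133, v135, v137, v139] at hc ⊢
  push_cast at hc ⊢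
  grind

theorem hE (c : Cx x1 x2) : v130 x1 x2 = v27 x1 x2 * v138 x1 x2 := by
  have h := s130 c
  rw [bE c, zero_add] at h
  exact h

theorem bS (c : Cx x1 x2) : v163 x1 x2 - v0 x1 x2 - v119 x1 x2 = 0 := by
  have hc := c.hc
  have h3 := s3q x1 x2
  have g0 := (c.p100).ne'
  have g1 := (c.p157).ne'
  simp only [v0, v3, v5, v10, v11, v13, v14, v16, v17, v18, v19, v22, v58, v68, v85, v88, v89, v91, v93, v98, v99, v100, v102, v106, v119, v143, v145, v146, v148, v149, v150, v152, v156, v157, v159, v163] at hc g0 g1 ⊢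
  push_cast at hc g0 g1 ⊢
  grind

theorem hS (c : Cx x1 x2) : v39 x1 x2 - v0 x1 x2 - v118 x1 x2 = v27 x1 x2 * v168 x1 x2 := by
  have a3 := s39 c
  have a2 := s118 c
  have b := bS c
  try simp only [v0, v1, v27, v110, v117, v118, v119, v123, v124, v167, v168] at a3
  try simp only [v0, v1, v27, v110, v117, v118, v119, v123, v124, v167, v168] at a2
  try simp only [v0, v1, v27, v110, v117, v118, v119, v123, v124, v167, v168] at b
  try simp only [v0, v1, v27, v110, v117, v118, v119, v123, v124, v167, v168]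
  (try push_cast at a3 a2 b ⊢)
  first | linear_combination a3 - a2 + b | grind

theorem bC (c : Cx x1 x2) : v140 x1 x2 * v163 x1 x2 - v169 x1 x2 * v0 x1 x2 = 0 := by
  have hc := c.hc
  have h3 := s3q x1 x2
  have g0 := (c.p157).ne'
  simp only [v0, v3, v10, v11, v13, v14, v16, v17, v18, v19, v22, v140, v143, v145, v146, v148, v149, v150, v152, v156, v157, v159, v163, v169] at hc g0 ⊢
  push_cast at hc g0 ⊢
  grind

theorem hC (c : Cx x1 x2) : v140 x1 x2 * v39 x1 x2 - v142 x1 x2 * v0 x1 x2 = v27 x1 x2 * v172 x1 x2 := by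
  have a2 : v140 x1 x2 * v39 x1 x2 = v140 x1 x2 * (v163 x1 x2 + v27 x1 x2 * v167 x1 x2) := congrArg (fun z => v140 x1 x2 * z) (s39 c)
  have a3 : v0 x1 x2 * v142 x1 x2 = v0 x1 x2 * (v169 x1 x2 + v27 x1 x2 * v57 x1 x2) := congrArg (fun z => v0 x1 x2 * z) (s142 c)
  have b := bC c
  try simp only [v0, v1, v2, v3, v27, v140, v142, v167, v169, v170, v171, v172] at a2
  try simp only [v0, v1, v2, v3, v27, v140, v142, v167, v169, v170, v171, v172] at a3
  try simp only [v0, v1, v2, v3, v27, v140, v142, v167, v169, v170, v171, v172] at b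
  simp only [v0, v1, v2, v3, v27, v140, v142, v167, v169, v170, v171, v172]
  (try push_cast at a2 a3 b ⊢)
  first | linear_combination a2 - a3 + b | grind

theorem hT (x1 x2 : ℝ) : v142 x1 x2 = v140 x1 x2 + v141 x1 x2 := by
  simp only [v2, v3, v26, v140, v141, v142]
  push_cast
  ring

theorem hG (c : Cx x1 x2) : v140 x1 x2 * v39 x1 x2 - (-v142 x1 x2) * (-v0 x1 x2) = v27 x1 x2 * v172 x1 x2 := by
  have b := hC c
  try simp only [v0, v1, v2, v3, v26, v27, v110, v117, v118, v123, v140, v141, v142, v167, v168, v172] at b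
  try simp only [v0, v1, v2, v3, v26, v27, v110, v117, v118, v123, v140, v141, v142, v167, v168, v172]
  (try push_cast at b ⊢)
  first | linear_combination b | grind

theorem core (c : Cx x1 x2) (hW : 0 ≤ v27 x1 x2) (hWQ : 0 ≤ v27 x1 x2 * v180 x1 x2) (h1 : 0 ≤ (-v142 x1 x2)) (h2 : 0 ≤ v140 x1 x2) (h3 : (-v142 x1 x2) + v140 x1 x2 ≤ Pool.Agent.StripNear.h0) :
    0 ≤ starn_v (v130 x1 x2) ((-v142 x1 x2)) (v140 x1 x2) (v39 x1 x2) ((-v0 x1 x2)) (v118 x1 x2) := by
  have hD : v39 x1 x2 + (-v0 x1 x2) - v118 x1 x2 = v27 x1 x2 * v168 x1 x2 := by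
    have b := hS c
    linear_combination b
  have k := starn_ge hW h1 h2 h3 (hE c) hD (hG c)
  have f0 : (-v142 x1 x2) = v179 x1 x2 := by
    simp only [v2, v3, v140, v142, v179]
    try (push_cast; ring)
  refine le_trans hWQ (le_trans (le_of_eq ?_) k)
  rw [v180]
  rw [f0]

end Pool.Agent.Strip051.LB.ChB03V1_pm_213
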